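import Pool.Agent.Odp2.Horm.Defs
import Pool.Agent.Work.MP_a2bf38_gt.X.NatCalc
import Pool.Agent.Work.MP_0e9e72_an.SCVA

/-!
# Calculus for the cut-off argument: the Levi form of `log (|F|² + c)`
-/

open scoped ContDiff Topology ENNReal NNReal WithZero
open Set MeasureTheory Filter MvPolynomial Pool.Agent.ODP Pool.Agent.ToricKRF
  Pool.Agent.ToricKRF.G Pool.Agent.KRFS Pool.Agent.KRFQ

namespace Pool.Agent.Odp2

open Pool.Agent.KRFS.ABP (ip ip_self)
open Pool.Agent.KRFX Pool.Agent.KRFF.NF Pool.Agent.KRFG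

variable {n l : ℕ}

/-! ### Complex coordinates -/

/-- the complex coordinates as a continuous linear map -/
noncomputable def cutccL (n : ℕ) : Cn n →L[ℝ] (Fin n → ℂ) where
  toFun := cc
  map_add' := fun u v => by
    funext k
    apply Complex.ext <;> simp [cc]
  map_smul' := fun c u => by
    funext k
    apply Complex.ext <;> simp [cc]
  cont := by
    refine continuous_pi fun k => ?_
    have h : (fun u : Cn n => cc u k) = fun u => ((u.1 k : ℝ) : ℂ) + (u.2 k : ℝ) * Complex.I := by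
      funext u
      apply Complex.ext <;> simp [cc]
    rw [h]
    fun_prop

theorem cutccL_apply (u : Cn n) : cutccL n u = cc u := rfl

theorem cut_continuous_cc : Continuous (cc : Cn n → Fin n → ℂ) := (cutccL n).continuous

theorem cut_isOpen {Ω : Set (Fin n → ℂ)} (hΩ : IsOpen Ω) : IsOpen {z : Cn n | cc z ∈ Ω} :=
  hΩ.preimage cut_continuous_cc

theorem cut_cc_J (u : Cn n) : cc (J u) = Complex.I • cc u := by
  funext k
  simp [cc_J]

theorem cut_nq_cc (z : Cn n) : nq (cc z) = nsq z := by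
  rw [NK.nsq_eq_sum]
  rfl

/-- holomorphic functions in real coordinates -/
theorem cut_holC {Ω : Set (Fin n → ℂ)} (hΩ : IsOpen Ω) {f : (Fin n → ℂ) → ℂ}
    (hf : DifferentiableOn ℂ f Ω) : HolC (fun z : Cn n => f (cc z)) {z | cc z ∈ Ω} := by
  refine ⟨?_, fun z hz u => ?_⟩
  · have h1 : ContDiffOn ℂ ∞ f Ω := SCV.contDiffOn_of_differentiableOn hΩ hf
    have h2 : ContDiffOn ℝ ∞ f Ω := h1.restrict_scalars ℝ
    exact h2.comp (cutccL n).contDiff.contDiffOn fun z hz => hz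
  · have h1 : HasFDerivAt f (fderiv ℂ f (cc z)) (cc z) :=
      (hf.differentiableAt (hΩ.mem_nhds hz)).hasFDerivAt
    have h2 : HasFDerivAt (fun z : Cn n => f (cc z))
        (((fderiv ℂ f (cc z)).restrictScalars ℝ).comp (cutccL n)) z :=
      (h1.restrictScalars ℝ).comp z (cutccL n).hasFDerivAt
    rw [h2.fderiv]
    simp only [ContinuousLinearMap.comp_apply, ContinuousLinearMap.coe_restrictScalars',
      cutccL_apply, cut_cc_J, map_smul, smul_eq_mul]

theorem cut_dzb_holC {b : Cn n → ℂ} {S : Set (Cn n)} (hb : HolC b S) {z : Cn n} (hz : z ∈ S)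
    (k : Fin n) : dzb k b z = 0 := by
  unfold dzb
  rw [← J_eR, hb.2 z hz]
  linear_combination (fderiv ℝ b z (eR k) / 2) * Complex.I_mul_I

/-! ### The function `log (|z|² + c)` -/

theorem cut_pos {c : ℝ} (hc : 0 < c) (z : Cn l) : 0 < nsq z + c :=
  add_pos_of_nonneg_of_pos (NC.nsq_nonneg z) hc

theorem cut_contDiff_log {c : ℝ} (hc : 0 < c) :
    ContDiff ℝ ∞ (fun z : Cn l => Real.log (nsq z + c)) :=
  contDiff_iff_contDiffAt.2 fun z =>
    (NC.contDiff_nsq.contDiffAt.add contDiffAt_const).log (cut_pos hc z).ne'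

theorem cut_D_log {c : ℝ} (hc : 0 < c) (z u : Cn l) :
    D u (fun z => Real.log (nsq z + c)) z = 2 * ip z u / (nsq z + c) := by
  have h0 : HasFDerivAt (nsq : Cn l → ℝ) (fderiv ℝ nsq z) z :=
    (NC.contDiff_nsq.differentiable (by simp) z).hasFDerivAt
  have h1 : HasFDerivAt (fun z : Cn l => nsq z + c) (fderiv ℝ nsq z) z := h0.add_const c
  have h2 := (h1.log (cut_pos hc z).ne').fderiv
  unfold D
  rw [h2]
  have h3 := NC.D_nsq z u
  unfold D at h3
  have h4 := (cut_pos hc z).ne'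
  simp only [smul_apply, smul_eq_mul, h3]
  field_simp

theorem cut_DD_log {c : ℝ} (hc : 0 < c) (z u : Cn l) :
    D u (D u fun z => Real.log (nsq z + c)) z =
      (2 * nsq u * (nsq z + c) - 4 * ip z u ^ 2) / (nsq z + c) ^ 2 := by
  have h1 : (D u fun z : Cn l => Real.log (nsq z + c)) = fun z => 2 * ip z u / (nsq z + c) := by
    funext z'
    exact cut_D_log hc z' u
  rw [h1]
  have h2 : HasFDerivAt (nsq : Cn l → ℝ) (fderiv ℝ nsq z) z :=
    (NC.contDiff_nsq.differentiable (by simp) z).hasFDerivAt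
  have h2' : HasFDerivAt (fun z : Cn l => nsq z + c) (fderiv ℝ nsq z) z := h2.add_const c
  have h3 : HasFDerivAt (fun z : Cn l => ip z u) (fderiv ℝ (fun z => ip z u) z) z :=
    ((NC.contDiff_ip u).differentiable (by simp) z).hasFDerivAt
  have hz := (cut_pos hc z).ne'
  have h8 : HasFDerivAt (fun z : Cn l => (nsq z + c)⁻¹)
      (-((nsq z + c) ^ 2)⁻¹ • fderiv ℝ nsq z) z :=
    (hasDerivAt_inv hz).comp_hasFDerivAt z h2'
  have h4 := ((h3.const_mul 2).fun_mul h8).fderiv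
  have h7 : (fun z : Cn l => 2 * ip z u / (nsq z + c)) =
      fun z => 2 * ip z u * (nsq z + c)⁻¹ := by
    funext z
    rw [div_eq_mul_inv]
  unfold D
  rw [h7, h4]
  have h5 := NC.D_nsq z u
  have h6 := NC.D_ip z u u
  unfold D at h5 h6
  simp only [smul_apply, add_apply, smul_eq_mul, h5, h6, ip_self]
  field_simp
  ring

theorem cut_levz_log {c : ℝ} (hc : 0 < c) (z u : Cn l) :
    levz (fun z => Real.log (nsq z + c)) u z = (NC.fs z u + c * nsq u) / (nsq z + c) ^ 2 := by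
  unfold levz
  rw [cut_DD_log hc, cut_DD_log hc]
  have h1 : nsq (J u) = nsq u := by
    rw [← ip_self, ← ip_self, NC.ip_J_J]
  have hz := (cut_pos hc z).ne'
  rw [h1, NC.fs]
  field_simp
  ring

theorem cut_le_levz_log {c : ℝ} (hc : 0 < c) (z u : Cn l) :
    c * nsq u / (nsq z + c) ^ 2 ≤ levz (fun z => Real.log (nsq z + c)) u z := by
  rw [cut_levz_log hc]
  have h1 := NC.fs_nonneg z u
  gcongr
  linarith

/-! ### The function `log (∑ |F_l|² + c)` -/

/-- the map `(F_1, …, F_L)` in real coordinates -/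
def cutH {L : ℕ} (F : Fin L → Cn n → ℂ) (z : Cn n) : Cn L :=
  (fun i => (F i z).re, fun i => (F i z).im)

theorem cut_nsq_H {L : ℕ} (F : Fin L → Cn n → ℂ) (z : Cn n) :
    nsq (cutH F z) = ∑ i, ‖F i z‖ ^ 2 := by
  rw [NK.nsq_eq_sum]
  rfl

theorem cut_contDiffOn_H {L : ℕ} {F : Fin L → Cn n → ℂ} {S : Set (Cn n)}
    (hF : ∀ i, ContDiffOn ℝ ∞ (F i) S) : ContDiffOn ℝ ∞ (cutH F) S := by
  unfold cutH
  refine ContDiffOn.prodMk ?_ ?_
  · exact contDiffOn_pi.2 fun i => Complex.reCLM.contDiff.comp_contDiffOn (hF i)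
  · exact contDiffOn_pi.2 fun i => Complex.imCLM.contDiff.comp_contDiffOn (hF i)

theorem cut_holOn_H {L : ℕ} {F : Fin L → Cn n → ℂ} {S : Set (Cn n)} (hS : IsOpen S)
    (hF : ∀ i, HolC (F i) S) : HolOn (cutH F) S := by
  refine ⟨cut_contDiffOn_H fun i => (hF i).1, fun z hz u => ?_⟩
  have hd : ∀ i, HasFDerivAt (F i) (fderiv ℝ (F i) z) z := fun i =>
    (((hF i).1.differentiableOn (by simp)).differentiableAt (hS.mem_nhds hz)).hasFDerivAt
  have h1 : HasFDerivAt (fun z => fun i => (F i z).re)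
      (ContinuousLinearMap.pi fun i => Complex.reCLM.comp (fderiv ℝ (F i) z)) z :=
    hasFDerivAt_pi.2 fun i => Complex.reCLM.hasFDerivAt.comp z (hd i)
  have h2 : HasFDerivAt (fun z => fun i => (F i z).im)
      (ContinuousLinearMap.pi fun i => Complex.imCLM.comp (fderiv ℝ (F i) z)) z :=
    hasFDerivAt_pi.2 fun i => Complex.imCLM.hasFDerivAt.comp z (hd i)
  have h3 : fderiv ℝ (cutH F) z = _ := (h1.prodMk h2).fderiv
  rw [h3]
  refine Prod.ext ?_ ?_
  · funext i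
    have h4 := (hF i).2 z hz u
    simp only [J] at h4
    simp [J, h4]
  · funext i
    have h4 := (hF i).2 z hz u
    simp only [J] at h4
    simp [J, h4]

theorem cut_contDiffOn_logF {L : ℕ} {F : Fin L → Cn n → ℂ} {S : Set (Cn n)}
    (hF : ∀ i, ContDiffOn ℝ ∞ (F i) S) {c : ℝ} (hc : 0 < c) :
    ContDiffOn ℝ ∞ (fun z => Real.log (∑ i, ‖F i z‖ ^ 2 + c)) S := by
  have h1 : (fun z => Real.log (∑ i, ‖F i z‖ ^ 2 + c)) =
      (fun w : Cn L => Real.log (nsq w + c)) ∘ cutH F := by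
    funext z
    simp only [Function.comp_apply, cut_nsq_H]
  rw [h1]
  exact (cut_contDiff_log hc).comp_contDiffOn (cut_contDiffOn_H hF)

theorem cut_levz_logF {L : ℕ} {F : Fin L → Cn n → ℂ} {S : Set (Cn n)} (hS : IsOpen S)
    (hF : ∀ i, HolC (F i) S) {c : ℝ} (hc : 0 < c) {z : Cn n} (hz : z ∈ S) (u : Cn n) :
    0 ≤ levz (fun z => Real.log (∑ i, ‖F i z‖ ^ 2 + c)) u z := by
  have h1 : (fun z => Real.log (∑ i, ‖F i z‖ ^ 2 + c)) =
      fun z => (fun w : Cn L => Real.log (nsq w + c)) (cutH F z) := by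
    funext z
    simp only [cut_nsq_H]
  rw [h1, levz_comp isOpen_univ (cut_contDiff_log hc).contDiffOn hS (cut_holOn_H hS hF) hz
    (mem_univ _)]
  refine le_trans ?_ (cut_le_levz_log hc _ _)
  have := NC.nsq_nonneg (fderiv ℝ (cutH F) z u)
  positivity

/-! ### The cut-off function -/

theorem cut_contDiff_cutf : ContDiff ℝ ∞ cutf := by
  unfold cutf
  exact (Real.smoothTransition.contDiff (n := ⊤)).comp
    ((contDiff_id.sub contDiff_const).div_const 3)

theorem cut_cutf_nonneg (t : ℝ) : 0 ≤ cutf t := Real.smoothTransition.nonneg _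

theorem cut_cutf_le_one (t : ℝ) : cutf t ≤ 1 := Real.smoothTransition.le_one _

theorem cut_deriv_zero {t : ℝ} (ht : t < 1 ∨ 4 < t) : deriv cutf t = 0 := by
  rcases ht with ht | ht
  · have h1 : cutf =ᶠ[𝓝 t] fun _ => (0 : ℝ) := by
      filter_upwards [Iio_mem_nhds ht] with x hx
      have hx' : x < 1 := hx
      exact Real.smoothTransition.zero_of_nonpos (by linarith)
    rw [h1.deriv_eq]
    simp
  · have h1 : cutf =ᶠ[𝓝 t] fun _ => (1 : ℝ) := by
      filter_upwards [Ioi_mem_nhds ht] with x hx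
      have hx' : 4 < x := hx
      exact Real.smoothTransition.one_of_one_le (by linarith)
    rw [h1.deriv_eq]
    simp

theorem cut_mem_shell {t : ℝ} (ht : deriv cutf t ≠ 0) : 1 ≤ t ∧ t ≤ 4 := by
  constructor
  · by_contra h
    exact ht (cut_deriv_zero (Or.inl (not_le.1 h)))
  · by_contra h
    exact ht (cut_deriv_zero (Or.inr (not_le.1 h)))

theorem cut_continuous_deriv : Continuous (deriv cutf) :=
  cut_contDiff_cutf.continuous_deriv (by simp)

theorem cut_deriv_bdd : ∃ M : ℝ, 0 < M ∧ ∀ t, deriv cutf t ^ 2 ≤ M := by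
  obtain ⟨M, hM⟩ := (isCompact_Icc (a := (1 : ℝ)) (b := 4)).exists_bound_of_continuousOn
    (cut_continuous_deriv.pow 2).continuousOn
  refine ⟨max M 1, lt_of_lt_of_le one_pos (le_max_right _ _), fun t => ?_⟩
  by_cases ht : deriv cutf t = 0
  · rw [ht]
    exact (by norm_num : (0 : ℝ) ^ 2 ≤ 1).trans (le_max_right _ _)
  · have h1 := hM t (cut_mem_shell ht)
    rw [Real.norm_eq_abs, abs_of_nonneg (sq_nonneg _)] at h1
    exact h1.trans (le_max_left _ _)

/-! ### The `∂bar`-derivative of `cutf (|z|² / r²) b` -/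

theorem cut_nsq_eR (z : Cn n) (k : Fin n) : D (eR k) nsq z = 2 * z.1 k := by
  rw [NC.D_nsq]
  simp [ip, eR]

theorem cut_nsq_eI (z : Cn n) (k : Fin n) : D (eI k) nsq z = 2 * z.2 k := by
  rw [NC.D_nsq]
  simp [ip, eI]

theorem cut_hasFDerivAt_phi (r : ℝ) (z : Cn n) :
    HasFDerivAt (fun z : Cn n => ((cutf (nsq z / r ^ 2) : ℝ) : ℂ))
      (Complex.ofRealCLM.comp ((deriv cutf (nsq z / r ^ 2) * (r ^ 2)⁻¹) • fderiv ℝ nsq z)) z := by
  have h0 : HasFDerivAt (nsq : Cn n → ℝ) (fderiv ℝ nsq z) z :=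
    (NC.contDiff_nsq.differentiable (by simp) z).hasFDerivAt
  have h1 : HasFDerivAt (fun z : Cn n => nsq z / r ^ 2) ((r ^ 2)⁻¹ • fderiv ℝ nsq z) z := by
    simpa [div_eq_mul_inv, mul_comm] using h0.mul_const (r ^ 2)⁻¹
  have h2 : HasDerivAt cutf (deriv cutf (nsq z / r ^ 2)) (nsq z / r ^ 2) :=
    ((cut_contDiff_cutf.differentiable (by simp)) _).hasDerivAt
  have h3 := h2.comp_hasFDerivAt z h1
  have h4 := Complex.ofRealCLM.hasFDerivAt.comp z h3
  rw [smul_smul] at h4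
  exact h4

theorem cut_dzb_phi (r : ℝ) (z : Cn n) (k : Fin n) :
    dzb k (fun z : Cn n => ((cutf (nsq z / r ^ 2) : ℝ) : ℂ)) z =
      ((deriv cutf (nsq z / r ^ 2) * (r ^ 2)⁻¹ : ℝ) : ℂ) * cc z k := by
  unfold dzb
  rw [(cut_hasFDerivAt_phi r z).fderiv]
  have h1 := cut_nsq_eR z k
  have h2 := cut_nsq_eI z k
  unfold D at h1 h2
  simp only [ContinuousLinearMap.comp_apply, smul_apply, smul_eq_mul, h1, h2,
    Complex.ofRealCLM_apply]
  apply Complex.ext <;> simp [cc] <;> ring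

theorem cut_sum_cc (z v : Cn n) :
    ‖∑ j, cc z j * (starRingEnd ℂ) (cc v j)‖ ^ 2 = ip z v ^ 2 + ip z (J v) ^ 2 := by
  rw [← Complex.normSq_eq_norm_sq, Complex.normSq_apply, Complex.re_sum, Complex.im_sum]
  have h1 : ∑ j, (cc z j * (starRingEnd ℂ) (cc v j)).re = ip z v := by
    simp only [ip, dotProduct, ← Finset.sum_add_distrib]
    refine Finset.sum_congr rfl fun j _ => ?_
    simp [cc]
  have h2 : ∑ j, (cc z j * (starRingEnd ℂ) (cc v j)).im = ip z (J v) := by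
    simp only [ip, dotProduct, ← Finset.sum_add_distrib]
    refine Finset.sum_congr rfl fun j _ => ?_
    simp [cc, J]
  rw [h1, h2]
  ring

theorem cut_sum_cc_le (z v : Cn n) :
    ‖∑ j, cc z j * (starRingEnd ℂ) (cc v j)‖ ^ 2 ≤ nsq z * nsq v := by
  rw [cut_sum_cc]
  have := NC.fs_nonneg z v
  unfold NC.fs at this
  linarith

/-- The main estimate: `|∂bar (cutf(|z|²/r²) b)|² ≤ 100 |b|² cutf'² Lev(log(|z|²+r²))`. -/
theorem cut_dbar_le {b : Cn n → ℂ} {S : Set (Cn n)} (hS : IsOpen S) (hb : HolC b S) {z : Cn n}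
    (hz : z ∈ S) {r : ℝ} (hr : 0 < r) (v : Cn n) :
    ‖∑ j, dzb j (fun z => ((cutf (nsq z / r ^ 2) : ℝ) : ℂ) * b z) z *
        (starRingEnd ℂ) (cc v j)‖ ^ 2 ≤
      (100 * ‖b z‖ ^ 2 * deriv cutf (nsq z / r ^ 2) ^ 2) *
        levz (fun z => Real.log (nsq z + r ^ 2)) v z := by
  have hbd : DifferentiableAt ℝ b z :=
    (hb.1.differentiableOn (by simp)).differentiableAt (hS.mem_nhds hz)
  have h1 : ∀ j, dzb j (fun z => ((cutf (nsq z / r ^ 2) : ℝ) : ℂ) * b z) z =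
      ((deriv cutf (nsq z / r ^ 2) * (r ^ 2)⁻¹ : ℝ) : ℂ) * cc z j * b z := by
    intro j
    rw [dzb_mul (cut_hasFDerivAt_phi r z).differentiableAt hbd, cut_dzb_phi,
      cut_dzb_holC hb hz, mul_zero, add_zero]
  have h2 : ∑ j, dzb j (fun z => ((cutf (nsq z / r ^ 2) : ℝ) : ℂ) * b z) z *
        (starRingEnd ℂ) (cc v j) = (((deriv cutf (nsq z / r ^ 2) * (r ^ 2)⁻¹ : ℝ) : ℂ) * b z) *
        ∑ j, cc z j * (starRingEnd ℂ) (cc v j) := by
    rw [Finset.mul_sum]
    refine Finset.sum_congr rfl fun j _ => ?_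
    rw [h1]
    ring
  rw [h2, norm_mul, norm_mul, mul_pow, mul_pow, Complex.norm_real, Real.norm_eq_abs, sq_abs,
    mul_pow]
  by_cases h0 : deriv cutf (nsq z / r ^ 2) = 0
  · rw [h0]
    simp
  obtain ⟨-, h4⟩ := cut_mem_shell h0
  have hr2 : 0 < r ^ 2 := by positivity
  rw [div_le_iff₀ hr2] at h4
  have h5 := cut_le_levz_log hr2 z v
  have h6 := cut_sum_cc_le z v
  have hN := NC.nsq_nonneg z
  have hV := NC.nsq_nonneg v
  have h7 : nsq z * nsq v * ((r ^ 2)⁻¹ ^ 2) ≤ 100 * (r ^ 2 * nsq v / (nsq z + r ^ 2) ^ 2) := by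
    have h8 : (nsq z + r ^ 2) ^ 2 ≤ 25 * (r ^ 2) ^ 2 := by nlinarith
    have h9 : nsq z * (nsq z + r ^ 2) ^ 2 ≤ 100 * (r ^ 2) ^ 3 := by
      calc nsq z * (nsq z + r ^ 2) ^ 2 ≤ (4 * r ^ 2) * (25 * (r ^ 2) ^ 2) := by
            gcongr
        _ = _ := by ring
    have h10 : 0 < (nsq z + r ^ 2) ^ 2 := by positivity
    rw [mul_div_assoc', le_div_iff₀ h10, inv_pow, ← div_eq_mul_inv, div_mul_eq_mul_div,
      div_le_iff₀ (by positivity)]
    nlinarith [mul_le_mul_of_nonneg_right h9 hV]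
  calc deriv cutf (nsq z / r ^ 2) ^ 2 * (r ^ 2)⁻¹ ^ 2 * ‖b z‖ ^ 2 *
        ‖∑ j, cc z j * (starRingEnd ℂ) (cc v j)‖ ^ 2
      ≤ deriv cutf (nsq z / r ^ 2) ^ 2 * (r ^ 2)⁻¹ ^ 2 * ‖b z‖ ^ 2 * (nsq z * nsq v) := by
        gcongr
    _ = ‖b z‖ ^ 2 * deriv cutf (nsq z / r ^ 2) ^ 2 * (nsq z * nsq v * ((r ^ 2)⁻¹ ^ 2)) := by ring
    _ ≤ ‖b z‖ ^ 2 * deriv cutf (nsq z / r ^ 2) ^ 2 *
        (100 * (r ^ 2 * nsq v / (nsq z + r ^ 2) ^ 2)) := by gcongr
    _ ≤ ‖b z‖ ^ 2 * deriv cutf (nsq z / r ^ 2) ^ 2 *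
        (100 * levz (fun z => Real.log (nsq z + r ^ 2)) v z) := by gcongr
    _ = _ := by ring

end Pool.Agent.Odp2
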