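import Pool.Agent.Odp2.Defs
import Pool.Agent.Odp2.Pt.Bdd
import Pool.Agent.Odp2.Pt.Sect
import Pool.Agent.Odp2.An.Ext
import Pool.Agent.Odp2.Eq.OrdPoly

open scoped ContDiff Topology ENNReal NNReal WithZero
open Set MeasureTheory Filter MvPolynomial Pool.Agent.ODP

namespace Pool.Agent.Odp2

/-- the trace formula for the coordinates. -/
theorem cf0_sum {n d : ℕ} {B : Type} [CommRing B] [Algebra ℂ B] (G : Germ n d B)
    {w : Fin n → ℂ} (hw : eval w G.D ≠ 0) {f : Fin d → Pt B} (hf : Function.Injective f)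
    (hfw : ∀ a, proj G.y (f a) = w) (b : B) (i : Fin d) :
    ∑ a, f a (G.du i) * f a b = eval w (G.cf b i) * eval w G.D := by
  have h1 := sW_mul_sV G hw hf hfw
  have h2 : ((eval w G.D)⁻¹ • sW G f) * sV G f = 1 := by
    rw [Matrix.smul_mul, h1, smul_smul, inv_mul_cancel₀ hw, one_smul]
  have h3 := mul_eq_one_comm.1 h2
  rw [Matrix.mul_smul] at h3
  have h4 : sV G f * sW G f = (eval w G.D) • (1 : Matrix (Fin d) (Fin d) ℂ) := by
    calc sV G f * sW G f = (eval w G.D) • ((eval w G.D)⁻¹ • (sV G f * sW G f)) := by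
          rw [smul_smul, mul_inv_cancel₀ hw, one_smul]
      _ = _ := by rw [h3]
  have h5 : ∀ k, ∑ a, f a (G.e k) * f a (G.du i) = if k = i then eval w G.D else 0 := by
    intro k
    have h6 := congrFun (congrFun h4 k) i
    rw [Matrix.mul_apply, Matrix.smul_apply, Matrix.one_apply] at h6
    have h7 : ∑ a, f a (G.e k) * f a (G.du i) = ∑ a, sV G f k a * sW G f a i := rfl
    rw [h7, h6]
    split_ifs <;> simp
  have h6 : ∀ a, f a b = ∑ k, eval w (G.cf b k) * f a (G.e k) := by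
    intro a
    conv_lhs => rw [G.cf_spec b]
    rw [map_sum]
    refine Finset.sum_congr rfl fun k _ => ?_
    rw [map_mul, bdd_aeval, hfw a]
  calc ∑ a, f a (G.du i) * f a b = ∑ a, ∑ k, eval w (G.cf b k) * (f a (G.e k) * f a (G.du i)) := by
        refine Finset.sum_congr rfl fun a _ => ?_
        rw [h6 a, Finset.mul_sum]
        refine Finset.sum_congr rfl fun k _ => ?_
        ring
    _ = ∑ k, eval w (G.cf b k) * ∑ a, f a (G.e k) * f a (G.du i) := by
        rw [Finset.sum_comm]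
        refine Finset.sum_congr rfl fun k _ => ?_
        rw [Finset.mul_sum]
    _ = _ := by
        rw [Finset.sum_eq_single i]
        · rw [h5, if_pos rfl]
        · intro k _ hk
          rw [h5, if_neg hk, mul_zero]
        · intro h
          exact absurd (Finset.mem_univ _) h

/-- the coefficients at `0` of the function `z` on the sheets near `x` are
those of `z * sg`, when `sg` is idempotent to a high order. -/
theorem coef_zero {n d : ℕ} {B : Type} [CommRing B] [Algebra ℂ B] {G : Germ n d B} {x : Pt B}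
    {sg : B} {m : ℕ} (hm : G.D.totalDegree < m) (hsg : IsSep G x m sg) {ρ : ℝ}
    {Q : (Fin n → ℂ) → ℂ} (hQ : IsQ G Q ρ) (z : B) {ζ : Fin d → (Fin n → ℂ) → ℂ}
    (hζ : ∀ i, DifferentiableOn ℂ (ζ i) (bal n ρ))
    (hζ2 : ∀ i, ∀ w ∈ bal n ρ, Q w ≠ 0 → ζ i w =
      ∑ᶠ χ ∈ {χ : Pt B | χ ∈ VV G sg Q ρ ∧ proj G.y χ = w},
        χ (G.du i) * χ z / eval w G.D) (i : Fin d) :
    ζ i 0 = eval (0 : Fin n → ℂ) (G.cf (z * sg) i) := by
  classical
  have hm1 : 1 ≤ m := by omega
  obtain ⟨ρ₀, C, hρ₀, hdich⟩ := hsg.dich hm1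
  obtain ⟨C₁, hC₁⟩ := G.bdd (G.du i) (ρ₀ ^ 2)
  obtain ⟨C₂, hC₂⟩ := G.bdd z (ρ₀ ^ 2)
  set A : ℝ := d * (|C₁| * |C₂| * |C|) with hA
  have hA0 : 0 ≤ A := by positivity
  set g : (Fin n → ℂ) → ℂ := fun w => ζ i w - eval w (G.cf (z * sg) i) with hg
  have key : ∀ w ∈ bal n ρ, nq w < ρ₀ ^ 2 → Q w ≠ 0 →
      ‖eval w G.D‖ * ‖g w‖ ≤ A * √(nq w) ^ m := by
    intro w hw hw0 hQw
    have hD : eval w G.D ≠ 0 := hQ.D_ne w hw hQw
    obtain ⟨f, hf, hfw, hall⟩ := sect_enum G hD
    have hset : {χ : Pt B | χ ∈ VV G sg Q ρ ∧ proj G.y χ = w} =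
        ↑((Finset.univ.filter fun a => ‖f a sg - 1‖ < 1 / 2).image f) := by
      ext χ
      simp only [Set.mem_ofPred_eq, Finset.coe_image, Finset.coe_filter, Finset.mem_univ, true_and,
        Set.mem_image]
      constructor
      · rintro ⟨⟨_, _, h3⟩, h4⟩
        obtain ⟨a, rfl⟩ := hall χ h4
        exact ⟨a, h3, rfl⟩
      · rintro ⟨a, h3, rfl⟩
        refine ⟨⟨?_, ?_, h3⟩, hfw a⟩
        · rw [hfw a]; exact hw
        · rw [hfw a]; exact hQw
    have h1 : eval w G.D * ζ i w =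
        ∑ a, if ‖f a sg - 1‖ < 1 / 2 then f a (G.du i) * f a z else 0 := by
      rw [hζ2 i w hw hQw, hset, finsum_mem_coe_finset, Finset.sum_image (fun a _ b _ h => hf h),
        Finset.mul_sum, ← Finset.sum_filter]
      refine Finset.sum_congr rfl fun a _ => ?_
      field_simp
    have h2 := cf0_sum G hD hf hfw (z * sg) i
    have h3 : eval w G.D * g w = ∑ a, f a (G.du i) * f a z *
        ((if ‖f a sg - 1‖ < 1 / 2 then 1 else 0) - f a sg) := by
      rw [hg]
      simp only []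
      rw [mul_sub, h1, mul_comm (eval w G.D), ← h2, ← Finset.sum_sub_distrib]
      refine Finset.sum_congr rfl fun a _ => ?_
      rw [map_mul]
      split_ifs <;> ring
    rw [← norm_mul, h3]
    refine (norm_sum_le _ _).trans ?_
    have h4 : ∀ a, ‖f a (G.du i) * f a z * ((if ‖f a sg - 1‖ < 1 / 2 then 1 else 0) - f a sg)‖ ≤
        |C₁| * |C₂| * |C| * √(nq w) ^ m := by
      intro a
      rw [norm_mul, norm_mul]
      have hle : nq (proj G.y (f a)) ≤ ρ₀ ^ 2 := by rw [hfw a]; exact hw0.le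
      have e1 := (hC₁ (f a) hle).trans (le_abs_self _)
      have e2 := (hC₂ (f a) hle).trans (le_abs_self _)
      have e3 : ‖(if ‖f a sg - 1‖ < 1 / 2 then (1 : ℂ) else 0) - f a sg‖ ≤ |C| * √(nq w) ^ m := by
        have hpow : 0 ≤ √(nq w) ^ m := by positivity
        have hCle : C * √(nq w) ^ m ≤ |C| * √(nq w) ^ m :=
          mul_le_mul_of_nonneg_right (le_abs_self _) hpow
        have h5 := hdich (f a) (by rw [hfw a]; exact hw0)
        rw [hfw a] at h5
        rcases h5 with ⟨h6, h7⟩ | ⟨h6, h7⟩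
        · rw [if_pos (h6.trans (by norm_num)), norm_sub_rev]
          exact h7.trans hCle
        · have h8 : ¬ ‖f a sg - 1‖ < 1 / 2 := by
            intro h9
            have h10 : (1 : ℝ) ≤ ‖f a sg‖ + ‖f a sg - 1‖ := by
              calc (1:ℝ) = ‖f a sg - (f a sg - 1)‖ := by simp
                _ ≤ _ := norm_sub_le _ _
            linarith
          rw [if_neg h8, zero_sub, norm_neg]
          exact h7.trans hCle
      calc ‖f a (G.du i)‖ * ‖f a z‖ * ‖(if ‖f a sg - 1‖ < 1 / 2 then (1 : ℂ) else 0) - f a sg‖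
          ≤ |C₁| * |C₂| * (|C| * √(nq w) ^ m) := by gcongr
        _ = _ := by ring
    refine (Finset.sum_le_sum fun a _ => h4 a).trans (le_of_eq ?_)
    rw [Finset.sum_const, Finset.card_univ, Fintype.card_fin, nsmul_eq_mul, hA]
    ring
  by_contra hne
  have hL : g 0 ≠ 0 := sub_ne_zero.2 hne
  have h0b : (0 : Fin n → ℂ) ∈ bal n ρ := by
    show nq (0 : Fin n → ℂ) < ρ ^ 2
    have h1 : nq (0 : Fin n → ℂ) = 0 := by simp [nq]
    rw [h1]
    have := hQ.pos
    positivity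
  have hopen : IsOpen (bal n ρ) := ext_bal_open n ρ
  have hev : Continuous fun w : Fin n → ℂ => eval w (G.cf (z * sg) i) :=
    MvPolynomial.continuous_eval _
  have hgc : ContinuousAt g 0 :=
    (((hζ i).differentiableAt (hopen.mem_nhds h0b)).continuousAt).sub hev.continuousAt
  have hnear : ∀ᶠ w in 𝓝 (0 : Fin n → ℂ), w ∈ bal n ρ ∧ nq w < ρ₀ ^ 2 ∧ ‖g 0‖ / 2 < ‖g w‖ := by
    refine (hopen.eventually_mem h0b).and (Eventually.and ?_ ?_)
    · have h1 : Continuous (nq (n := n)) := ext_nq_cont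
      refine h1.continuousAt.eventually_lt_const ?_
      have h2 : nq (0 : Fin n → ℂ) = 0 := by simp [nq]
      rw [h2]
      positivity
    · refine hgc.norm.eventually_const_lt ?_
      have := norm_pos_iff.2 hL
      linarith
  obtain ⟨δ, hδ, hball⟩ := Metric.eventually_nhds_iff.1 hnear
  have hgp := norm_pos_iff.2 hL
  set K : ℝ := 2 * A / ‖g 0‖ with hK
  have hK0 : 0 ≤ K := by positivity
  -- the bound for `D` where `Q ≠ 0`
  have hb1 : ∀ w, ‖w‖ < δ → Q w ≠ 0 → ‖eval w G.D‖ ≤ K * √(nq w) ^ m := by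
    intro w hw hQw
    obtain ⟨h1, h2, h3⟩ := hball (y := w) (by rwa [dist_zero_right])
    have h4 := key w h1 h2 hQw
    have h5 : ‖eval w G.D‖ * (‖g 0‖ / 2) ≤ A * √(nq w) ^ m :=
      (mul_le_mul_of_nonneg_left h3.le (norm_nonneg _)).trans h4
    rw [hK, div_mul_eq_mul_div, le_div_iff₀ hgp]
    linarith
  have hb2 : ∀ w, ‖w‖ < δ → ‖eval w G.D‖ ≤ K * √(nq w) ^ m := by
    intro w hw
    have hwb : w ∈ bal n ρ := (hball (y := w) (by rwa [dist_zero_right])).1
    have hnb : (𝓝[{w | w ∈ bal n ρ ∧ Q w ≠ 0}] w).NeBot := ext_dense hQ.holo hQ.ne hwb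
    have c1 : Continuous fun w : Fin n → ℂ => ‖eval w G.D‖ :=
      (MvPolynomial.continuous_eval _).norm
    have c2 : Continuous fun w : Fin n → ℂ => K * √(nq w) ^ m := by
      have := ext_nq_cont (n := n)
      fun_prop
    have t1 : Tendsto (fun w : Fin n → ℂ => ‖eval w G.D‖)
        (𝓝[{w | w ∈ bal n ρ ∧ Q w ≠ 0}] w) (𝓝 ‖eval w G.D‖) :=
      c1.continuousAt.tendsto.mono_left nhdsWithin_le_nhds
    have t2 : Tendsto (fun w : Fin n → ℂ => K * √(nq w) ^ m)
        (𝓝[{w | w ∈ bal n ρ ∧ Q w ≠ 0}] w) (𝓝 (K * √(nq w) ^ m)) :=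
      c2.continuousAt.tendsto.mono_left nhdsWithin_le_nhds
    refine le_of_tendsto_of_tendsto t1 t2 ?_
    have h1 : ∀ᶠ w' in 𝓝[{w | w ∈ bal n ρ ∧ Q w ≠ 0}] w, ‖w'‖ < δ :=
      nhdsWithin_le_nhds ((continuous_norm.continuousAt (x := w)).eventually_lt_const hw)
    filter_upwards [self_mem_nhdsWithin, h1] with w' h2 h3
    exact hb1 w' h3 h2.2
  rcases Nat.eq_zero_or_pos n with hn | hn
  · subst hn
    obtain ⟨w, hw, hQw⟩ := hQ.ne
    have h1 : w = 0 := Subsingleton.elim _ _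
    have h2 := hb2 0 (by rw [norm_zero]; exact hδ)
    have h3 : nq (0 : Fin 0 → ℂ) = 0 := by simp [nq]
    rw [h3, Real.sqrt_zero, zero_pow (by omega), mul_zero] at h2
    have h4 := hQ.D_ne w hw hQw
    rw [h1] at h4
    exact h4 (norm_le_zero_iff.1 h2)
  · refine not_ordGe_poly hn G.D_ne ⟨K, min δ 1, lt_min hδ one_pos, fun w hw => ?_⟩
    have h0 : √(nq w) < min δ 1 := by
      rw [Real.sqrt_lt' (lt_min hδ one_pos)]
      exact hw
    have h1 : ‖w‖ < δ := by
      rw [pi_norm_lt_iff hδ]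
      intro j
      exact (norm_le_sqrt_nq w j).trans_lt (h0.trans_le (min_le_left _ _))
    refine (hb2 w h1).trans (mul_le_mul_of_nonneg_left ?_ hK0)
    exact pow_le_pow_of_le_one (Real.sqrt_nonneg _) (h0.le.trans (min_le_right _ _)) hm

end Pool.Agent.Odp2
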