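import Pool.Agent.Odp2.Horm.Defs
import Pool.Agent.Odp2.Pt.Sect
import Pool.Agent.Work.MP_a2bf38_gt.Q.MeasEx

/-!
# The atlas of the sheets
-/

open scoped ContDiff Topology ENNReal NNReal WithZero
open Set MeasureTheory Filter MvPolynomial Pool.Agent.ODP Pool.Agent.ToricKRF
  Pool.Agent.ToricKRF.G Pool.Agent.KRFS Pool.Agent.KRFQ

namespace Pool.Agent.Odp2

section Top

variable {B : Type} [CommRing B] [Algebra ℂ B]

/-- The topology of pointwise convergence. -/
noncomputable instance instTopPt : TopologicalSpace (Pt B) :=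
  TopologicalSpace.induced (fun (χ : Pt B) (b : B) => χ b) inferInstance

theorem isEmbedding_ev : Topology.IsEmbedding (fun (χ : Pt B) (b : B) => χ b) :=
  ⟨⟨rfl⟩, fun _ _ h => AlgHom.ext fun b => congrFun h b⟩

instance instT2Pt : T2Space (Pt B) := isEmbedding_ev.t2Space

noncomputable instance instMeasPt : MeasurableSpace (Pt B) := borel _

instance instBorelPt : BorelSpace (Pt B) := ⟨rfl⟩

theorem continuous_ev (b : B) : Continuous fun χ : Pt B => χ b :=
  (continuous_apply b).comp isEmbedding_ev.continuous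

theorem continuous_proj {n : ℕ} (y : Fin n → B) : Continuous (proj y) :=
  continuous_pi fun j => continuous_ev (y j)

theorem continuousOn_pt {X : Type*} [TopologicalSpace X] {f : X → Pt B} {S : Set X}
    (h : ∀ b, ContinuousOn (fun x => f x b) S) : ContinuousOn f S := by
  rw [isEmbedding_ev.continuousOn_iff]
  exact continuousOn_pi.2 h

end Top

theorem continuous_cc' {n : ℕ} : Continuous (cc : Cn n → Fin n → ℂ) :=
  continuous_pi fun j => (KRFQ.ccL j).continuous

theorem continuous_ofv {n : ℕ} : Continuous (ofv : (Fin n → ℂ) → Cn n) := by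
  unfold ofv
  fun_prop

theorem cc_ofv' {n : ℕ} (W : Fin n → ℂ) : cc (ofv W) = W := funext fun j => cc_ofv W j

theorem ofv_cc {n : ℕ} (z : Cn n) : ofv (cc z) = z := cc_ext fun _ => cc_ofv _ _

variable {n d : ℕ} {B : Type} [CommRing B] [Algebra ℂ B]

theorem aeval_pt {y : Fin n → B} (χ : Pt B) (p : MvPolynomial (Fin n) ℂ) :
    χ (aeval y p) = eval (proj y χ) p := by
  have h := MvPolynomial.comp_aeval_apply (f := y) χ p
  rw [h]
  rfl

theorem Germ.apply_eq (G : Germ n d B) (χ : Pt B) (b : B) :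
    χ b = ∑ i, eval (proj G.y χ) (G.cf b i) * χ (G.e i) := by
  conv_lhs => rw [G.cf_spec b]
  rw [map_sum]
  refine Finset.sum_congr rfl fun i _ => ?_
  rw [map_mul, aeval_pt]

theorem Germ.secondCountable (G : Germ n d B) : SecondCountableTopology (Pt B) := by
  let φ : Pt B → (Fin n → ℂ) × (Fin d → ℂ) := fun χ => (proj G.y χ, fun i => χ (G.e i))
  let ψ : (Fin n → ℂ) × (Fin d → ℂ) → B → ℂ := fun q b => ∑ i, eval q.1 (G.cf b i) * q.2 i
  have hφ : Continuous φ :=
    (continuous_proj G.y).prodMk (continuous_pi fun i => continuous_ev (G.e i))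
  have hψ : Continuous ψ := by
    refine continuous_pi fun b => continuous_finsetSum _ fun i _ => ?_
    exact ((MvPolynomial.continuous_eval _).comp continuous_fst).mul
      ((continuous_apply i).comp continuous_snd)
  have h : Topology.IsInducing φ := by
    refine Topology.IsInducing.of_comp hφ hψ ?_
    have h2 : ψ ∘ φ = fun (χ : Pt B) (b : B) => χ b := by
      funext χ b
      exact (G.apply_eq χ b).symm
    rw [h2]
    exact isEmbedding_ev.isInducing
  exact h.secondCountableTopology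

/-- The holomorphic sections with values in `V`. -/
structure Sec (G : Germ n d B) (V : Set (Pt B)) where
  Ω : Set (Fin n → ℂ)
  s : (Fin n → ℂ) → Pt B
  isSec : IsSec G V Ω s
  D_ne : ∀ w ∈ Ω, eval w G.D ≠ 0

variable {G : Germ n d B} {V : Set (Pt B)}

theorem IsSec.continuousOn {Ω : Set (Fin n → ℂ)} {s : (Fin n → ℂ) → Pt B}
    (h : IsSec G V Ω s) : ContinuousOn s Ω :=
  continuousOn_pt fun b => (h.holo b).continuousOn

theorem IsSec.mono {Ω Ω' : Set (Fin n → ℂ)} {s : (Fin n → ℂ) → Pt B}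
    (h : IsSec G V Ω s) (hO : IsOpen Ω') (hs : Ω' ⊆ Ω) {V' : Set (Pt B)}
    (hV : ∀ w ∈ Ω', s w ∈ V') : IsSec G V' Ω' s :=
  ⟨hO, hV, fun w hw => h.proj w (hs hw), fun b => (h.holo b).mono hs⟩

/-- Near `s w` all points are values of `s`. -/
theorem sec_eventually_eq {Ω : Set (Fin n → ℂ)} {s : (Fin n → ℂ) → Pt B}
    (h : IsSec G V Ω s) {w : Fin n → ℂ} (hw : w ∈ Ω) (hD : eval w G.D ≠ 0) :
    ∀ᶠ χ in 𝓝 (s w), proj G.y χ ∈ Ω ∧ χ = s (proj G.y χ) := by
  obtain ⟨Ω', hO', hw', t, ht, hinj, hsurj⟩ := G.exists_sections hD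
  obtain ⟨i₀, hi₀⟩ := hsurj w hw' (s w) (h.proj w hw)
  have hpr : Tendsto (proj G.y) (𝓝 (s w)) (𝓝 w) := by
    have := (continuous_proj G.y).tendsto (s w)
    rwa [h.proj w hw] at this
  have h1 : ∀ᶠ χ in 𝓝 (s w), proj G.y χ ∈ Ω ∧ proj G.y χ ∈ Ω' ∧
      s (proj G.y χ) = t i₀ (proj G.y χ) :=
    ((h.isOpen.eventually_mem hw).and
      ((hO'.eventually_mem hw').and
        (h.eventuallyEq (ht i₀) hw hw' hD hi₀.symm))) |> hpr.eventually
  have h2 : ∀ i, i ≠ i₀ → ∀ᶠ χ in 𝓝 (s w), χ ≠ t i (proj G.y χ) := by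
    intro i hi
    have h3 : t i w ≠ s w := by
      rw [← hi₀]
      exact fun h4 => hi (hinj w hw' h4)
    obtain ⟨b, hb⟩ : ∃ b, t i w b ≠ s w b := by
      by_contra hcon
      push Not at hcon
      exact h3 (AlgHom.ext hcon)
    have h4 : Tendsto (fun χ : Pt B => χ b) (𝓝 (s w)) (𝓝 (s w b)) :=
      (continuous_ev b).tendsto (s w)
    have h5 : Tendsto (fun χ : Pt B => t i (proj G.y χ) b) (𝓝 (s w)) (𝓝 (t i w b)) :=
      (((ht i).holo b).continuousOn.continuousAt (hO'.mem_nhds hw')).tendsto.comp hpr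
    have h6 := (h4.sub h5).eventually_ne (sub_ne_zero.2 hb.symm)
    filter_upwards [h6] with χ hχ hcon
    apply hχ
    rw [sub_eq_zero]
    conv_lhs => rw [hcon]
  have h3 : ∀ᶠ χ in 𝓝 (s w), ∀ i, i ≠ i₀ → χ ≠ t i (proj G.y χ) :=
    eventually_all.2 fun i => eventually_imp_distrib_left.2 (h2 i)
  filter_upwards [h1, h3] with χ hχ hχ3
  refine ⟨hχ.1, ?_⟩
  obtain ⟨i, hi⟩ := hsurj _ hχ.2.1 χ rfl
  by_cases hii : i = i₀
  · rw [hχ.2.2, ← hii, hi]
  · exact absurd hi.symm (hχ3 i hii)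

/-- The chart of a section. -/
noncomputable def ech (c : Sec G V) : OpenPartialHomeomorph (Pt B) (Cn n) where
  toFun χ := ofv (proj G.y χ)
  invFun z := c.s (cc z)
  source := c.s '' c.Ω
  target := {z | cc z ∈ c.Ω}
  map_source' := by
    rintro _ ⟨w, hw, rfl⟩
    change cc (ofv (proj G.y (c.s w))) ∈ c.Ω
    rw [c.isSec.proj w hw, cc_ofv']
    exact hw
  map_target' z hz := ⟨cc z, hz, rfl⟩
  left_inv' := by
    rintro _ ⟨w, hw, rfl⟩
    change c.s (cc (ofv (proj G.y (c.s w)))) = c.s w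
    rw [c.isSec.proj w hw, cc_ofv']
  right_inv' z hz := by
    change ofv (proj G.y (c.s (cc z))) = z
    rw [c.isSec.proj _ hz, ofv_cc]
  open_source := by
    rw [isOpen_iff_mem_nhds]
    rintro _ ⟨w, hw, rfl⟩
    filter_upwards [sec_eventually_eq c.isSec hw (c.D_ne w hw)] with χ hχ
    exact ⟨_, hχ.1, hχ.2.symm⟩
  open_target := c.isSec.isOpen.preimage continuous_cc'
  continuousOn_toFun := (continuous_ofv.comp (continuous_proj G.y)).continuousOn
  continuousOn_invFun := c.isSec.continuousOn.comp continuous_cc'.continuousOn fun _ hz => hz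

theorem ech_apply (c : Sec G V) (χ : Pt B) : ech c χ = ofv (proj G.y χ) := rfl

theorem ech_symm (c : Sec G V) (z : Cn n) : (ech c).symm z = c.s (cc z) := rfl

theorem ech_source (c : Sec G V) : (ech c).source = c.s '' c.Ω := rfl

theorem ech_target (c : Sec G V) : (ech c).target = {z | cc z ∈ c.Ω} := rfl

theorem tr_ech (c c' : Sec G V) {z : Cn n} (hz : z ∈ dom ech c c') : tr ech c c' z = z := by
  change ofv (proj G.y (c.s (cc z))) = z
  rw [c.isSec.proj _ hz.1, ofv_cc]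

theorem tr_ech_eventually (c c' : Sec G V) {z : Cn n} (hz : z ∈ dom ech c c') :
    tr ech c c' =ᶠ[𝓝 z] id := by
  filter_upwards [(KRFS.isOpen_dom c c').mem_nhds hz] with x hx
  exact tr_ech c c' hx

theorem fderiv_tr_ech (c c' : Sec G V) {z : Cn n} (hz : z ∈ dom ech c c') (u : Cn n) :
    fderiv ℝ (tr ech c c') z u = u := by
  rw [(tr_ech_eventually c c' hz).fderiv_eq, fderiv_id]
  rfl

theorem holOn_tr_ech (c c' : Sec G V) : HolOn (tr ech c c') (dom ech c c') := by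
  refine ⟨contDiffOn_id.congr fun z hz => tr_ech c c' hz, fun z hz u => ?_⟩
  rw [fderiv_tr_ech c c' hz, fderiv_tr_ech c c' hz]

theorem symm_eq (c c' : Sec G V) {z : Cn n} (hz : z ∈ dom ech c c') :
    c'.s (cc z) = c.s (cc z) := by
  have h := symm_tr hz
  rw [tr_ech c c' hz] at h
  exact h

theorem symm_eventuallyEq (c c' : Sec G V) {z : Cn n} (hz : z ∈ dom ech c c') {E : Type*}
    (F : Pt B → E) : (fun x => F (c.s (cc x))) =ᶠ[𝓝 z] fun x => F (c'.s (cc x)) := by
  filter_upwards [(KRFS.isOpen_dom c c').mem_nhds hz] with x hx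
  rw [symm_eq c c' hx]

theorem levz_congr' {f g : Cn n → ℝ} {z : Cn n} (h : f =ᶠ[𝓝 z] g) (u : Cn n) :
    levz f u z = levz g u z := by
  have h2 : ∀ w : Cn n, D w (D w f) z = D w (D w g) z := by
    intro w
    have h1 : D w f =ᶠ[𝓝 z] D w g := by
      filter_upwards [h.eventuallyEq_nhds] with x hx
      change fderiv ℝ f x w = fderiv ℝ g x w
      rw [hx.fderiv_eq]
    change fderiv ℝ (D w f) z w = fderiv ℝ (D w g) z w
    rw [h1.fderiv_eq]
  unfold levz
  rw [h2, h2]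

theorem l2d {Φ γ : Pt B → ℝ} (hV : ∀ p ∈ V, ∃ c : Sec G V, p ∈ (ech c).source)
    (hΦ : SmR G V Φ) (hγ : SmR G V γ)
    (hpos : ∀ Ω s, IsSec G V Ω s → ∀ z : Cn n, cc z ∈ Ω → ∀ u, u ≠ 0 →
      0 < levz (fun z => γ (s (cc z))) u z) :
    L2D (ech (G := G) (V := V)) V (fun c z => Real.exp (-Φ (c.s (cc z))))
      (fun c z => γ (c.s (cc z))) where
  sub c := by
    rintro _ ⟨w, hw, rfl⟩
    exact c.isSec.mem w hw
  cover := hV
  holo := holOn_tr_ech
  w_smooth c := (Real.contDiff_exp.comp_contDiffOn (hΦ _ _ c.isSec).neg)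
  w_pos _ z _ := Real.exp_pos _
  w_compat c c' z hz := by
    have h1 : fderiv ℝ (tr ech c c') z = ContinuousLinearMap.id ℝ (Cn n) :=
      ContinuousLinearMap.ext fun u => fderiv_tr_ech c c' hz u
    have h2 : (ContinuousLinearMap.id ℝ (Cn n)).det = 1 := by
      change LinearMap.det (ContinuousLinearMap.id ℝ (Cn n) : Cn n →ₗ[ℝ] Cn n) = 1
      exact LinearMap.det_id
    rw [h1, h2, abs_one, one_mul, tr_ech c c' hz, symm_eq c c' hz]
  w_lev c c' z hz u := by
    rw [fderiv_tr_ech c c' hz, tr_ech c c' hz]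
    exact levz_congr' (symm_eventuallyEq c c' hz fun p => -Real.log (Real.exp (-Φ p))) u
  g_smooth c := hγ _ _ c.isSec
  g_pos c z hz u hu := hpos _ _ c.isSec z hz u hu
  g_compat c c' z hz u := by
    rw [fderiv_tr_ech c c' hz, tr_ech c c' hz]
    exact levz_congr' (symm_eventuallyEq c c' hz γ) u

/-- The charts through the points of an open set over `D ≠ 0`. -/
theorem exists_chart (hVo : IsOpen V) {p : Pt B} (hp : p ∈ V) (hD : eval (proj G.y p) G.D ≠ 0) :
    ∃ c : Sec G V, p ∈ (ech c).source := by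
  obtain ⟨Ω, hO, hw, t, ht, -, hsurj⟩ := G.exists_sections hD
  obtain ⟨i, hi⟩ := hsurj _ hw p rfl
  have h1 : IsOpen (Ω ∩ t i ⁻¹' V) := (ht i).continuousOn.isOpen_inter_preimage hO hVo
  have h2 : IsOpen {w : Fin n → ℂ | eval w G.D ≠ 0} :=
    isOpen_ne_fun (MvPolynomial.continuous_eval _) continuous_const
  have h3 : (Ω ∩ t i ⁻¹' V) ∩ {w : Fin n → ℂ | eval w G.D ≠ 0} ⊆ Ω := fun w hw => hw.1.1
  refine ⟨⟨(Ω ∩ t i ⁻¹' V) ∩ {w : Fin n → ℂ | eval w G.D ≠ 0}, t i,
    (ht i).mono (h1.inter h2) h3 fun w hw => hw.1.2, fun w hw => hw.2⟩, ?_⟩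
  refine ⟨proj G.y p, ⟨⟨hw, ?_⟩, hD⟩, hi⟩
  change t i (proj G.y p) ∈ V
  rw [hi]
  exact hp

/-- The empty section. -/
def emptySec (x : Pt B) : Sec G V where
  Ω := ∅
  s := fun _ => x
  isSec := ⟨isOpen_empty, by simp, by simp, fun b => differentiableOn_empty⟩
  D_ne := by simp

/-- Countably many charts suffice. -/
theorem exists_cover (x : Pt B) (hV : ∀ p ∈ V, ∃ c : Sec G V, p ∈ (ech c).source) :
    ∃ s : ℕ → Sec G V, V = ⋃ i, (ech (s i)).source := by
  have := G.secondCountable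
  have h1 : V ⊆ ⋃ c : Sec G V, (ech c).source := fun p hp => mem_iUnion.2 (hV p hp)
  obtain ⟨T, hT, hT2⟩ := TopologicalSpace.isOpen_iUnion_countable
    (fun c : Sec G V => (ech c).source) (fun c => (ech c).open_source)
  have h2 : (insert (emptySec x) T : Set (Sec G V)).Countable := hT.insert _
  obtain ⟨s, hs⟩ := h2.exists_eq_range (insert_nonempty _ _)
  refine ⟨s, le_antisymm (fun p hp => ?_) ?_⟩
  · have h3 := h1 hp
    rw [← hT2] at h3
    obtain ⟨c, hc, hpc⟩ := mem_iUnion₂.1 h3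
    have h4 : c ∈ range s := hs ▸ mem_insert_of_mem _ hc
    obtain ⟨i, rfl⟩ := h4
    exact mem_iUnion.2 ⟨i, hpc⟩
  · refine iUnion_subset fun i => ?_
    rintro _ ⟨w, hw, rfl⟩
    exact (s i).isSec.mem w hw

theorem nq_eq_nsq (z : Cn n) : nq (cc z) = nsq z := by
  unfold nq nsq dotProduct
  rw [← Finset.sum_add_distrib]
  refine Finset.sum_congr rfl fun j _ => ?_
  rw [← Complex.normSq_eq_norm_sq, Complex.normSq_apply]
  rfl

theorem continuous_nq : Continuous (nq (n := n)) := by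
  unfold nq
  fun_prop

theorem isOpen_bal (n : ℕ) (ρ : ℝ) : IsOpen (bal n ρ) := isOpen_lt continuous_nq continuous_const

theorem isOpen_VV (sg : B) {Q : (Fin n → ℂ) → ℂ} {ρ : ℝ} (hQ : ContinuousOn Q (bal n ρ)) :
    IsOpen (VV G sg Q ρ) := by
  have h1 : IsOpen (bal n ρ ∩ Q ⁻¹' {0}ᶜ) :=
    hQ.isOpen_inter_preimage (isOpen_bal n ρ) isClosed_singleton.isOpen_compl
  have h2 : IsOpen {χ : Pt B | ‖χ sg - 1‖ < 1 / 2} :=
    isOpen_lt ((continuous_ev sg).sub continuous_const).norm continuous_const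
  have h3 : VV G sg Q ρ = proj G.y ⁻¹' (bal n ρ ∩ Q ⁻¹' {0}ᶜ) ∩
      {χ : Pt B | ‖χ sg - 1‖ < 1 / 2} := by
    ext χ
    simp only [VV, bal, mem_ofPred_eq, mem_inter_iff, mem_preimage, mem_compl_iff,
      mem_singleton_iff, and_assoc]
  rw [h3]
  exact (h1.preimage (continuous_proj G.y)).inter h2

theorem IsQ.chart {sg : B} {Q : (Fin n → ℂ) → ℂ} {ρ : ℝ} (hQ : IsQ G Q ρ) {p : Pt B}
    (hp : p ∈ VV G sg Q ρ) : ∃ c : Sec G (VV G sg Q ρ), p ∈ (ech c).source :=
  exists_chart (isOpen_VV sg hQ.holo.continuousOn) hp (hQ.D_ne _ hp.1 hp.2.1)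

end Pool.Agent.Odp2
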